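import Mathlib

set_option autoImplicit false

/-!
# Ordinary and modular Schur numbers: basic definitions and the comparison `3 s(n) - 1 ≤ t(n+1)`
-/

namespace Pool.Agent.Helper339_Schur

/-- `c` has no monochromatic solution of `x + y = z` in `{1,…,m}`. -/
def SchurGood {n : ℕ} (c : ℕ → Fin n) (m : ℕ) : Prop :=
  ∀ x y z : ℕ, 1 ≤ x → x ≤ m → 1 ≤ y → y ≤ m → 1 ≤ z → z ≤ m → c x = c y → c y = c z → x + y ≠ z

/-- `c` has no monochromatic solution of `x + y ≡ z` modulo `m + 1` in `{1,…,m}`. -/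
def ModGood {n : ℕ} (c : ℕ → Fin n) (m : ℕ) : Prop :=
  ∀ x y z : ℕ, 1 ≤ x → x ≤ m → 1 ≤ y → y ≤ m → 1 ≤ z → z ≤ m → c x = c y → c y = c z →
    ¬ x + y ≡ z [MOD m + 1]

/-- In the range `1..m` the congruence modulo `m+1` is `x + y = z` or `x + y = z + (m+1)`. -/
theorem modEq_cases {m x y z : ℕ} (hx : x ≤ m) (hy : y ≤ m) (hz : z ≤ m)
    (h : x + y ≡ z [MOD m + 1]) : x + y = z ∨ x + y = z + (m + 1) := by
  have h1 : (x + y) % (m + 1) = z := by
    rw [h, Nat.mod_eq_of_lt (by omega)]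
  rcases Nat.lt_or_ge (x + y) (m + 1) with h2 | h2
  · rw [Nat.mod_eq_of_lt h2] at h1
    exact Or.inl h1
  · right
    have h3 : (x + y) % (m + 1) = x + y - (m + 1) := by
      rw [Nat.mod_eq_sub_mod h2, Nat.mod_eq_of_lt (by omega)]
    omega

theorem ModGood.schurGood {n : ℕ} {c : ℕ → Fin n} {m : ℕ} (h : ModGood c m) : SchurGood c m := by
  intro x y z hx hx' hy hy' hz hz' h1 h2 h3
  exact h x y z hx hx' hy hy' hz hz' h1 h2 (by rw [h3])

/-- The basic construction: a middle interval in the new colour, reflections outside. -/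
def glue {n : ℕ} (c : ℕ → Fin n) (lo hi N : ℕ) (x : ℕ) : Fin (n + 1) :=
  if x < lo then (c x).castSucc else if x ≤ hi then Fin.last n else (c (N - x)).castSucc

theorem glue_modGood {n : ℕ} (c : ℕ → Fin n) (m j lo hi N : ℕ) (hc : SchurGood c m) (hj : j ≤ m)
    (h : (lo = j + 1 ∧ hi = 2 * j ∧ N = 3 * j + 1) ∨ (lo = j + 1 ∧ hi = 2 * j + 1 ∧ N = 3 * j + 2) ∨
      (lo = j ∧ hi + 1 = 2 * j ∧ N = 3 * j ∧ 1 ≤ j)) : ModGood (glue c lo hi N) (N - 1) := by
  intro x y z hx hx' hy hy' hz hz' h1 h2 h3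
  have h4 := modEq_cases hx' hy' hz' h3
  have h5 : x + y = z ∨ x + y = z + N := by
    rcases h4 with h4 | h4
    · exact Or.inl h4
    · right; omega
  have hgood : ∀ a b d : ℕ, 1 ≤ a → 1 ≤ b → 1 ≤ d → a ≤ j → b ≤ j → d ≤ j → c a = c b → c b = c d →
      a + b ≠ d := fun a b d ha hb hd ha' hb' hd' => 
    hc a b d ha (ha'.trans hj) hb (hb'.trans hj) hd (hd'.trans hj)
  unfold glue at h1 h2
  have hne : ∀ i : Fin n, i.castSucc ≠ Fin.last n := fun i => Fin.castSucc_ne_last i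
  split_ifs at h1 h2 with a1 a2 a3 a4 a5 a6 <;>
    first
      | exact absurd h1 (hne _)
      | exact absurd h2 (hne _)
      | exact absurd h1.symm (hne _)
      | exact absurd h2.symm (hne _)
      | omega
      | skip
  all_goals
    (have e1 := Fin.castSucc_injective n h1
     have e2 := Fin.castSucc_injective n h2
     first
       | exact hgood _ _ _ (by omega) (by omega) (by omega) (by omega) (by omega) (by omega) e1 e2 (by omega)
       | exact hgood _ _ _ (by omega) (by omega) (by omega) (by omega) (by omega) (by omega) e2 (e1.trans e2).symm (by omega)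
       | exact hgood _ _ _ (by omega) (by omega) (by omega) (by omega) (by omega) (by omega) (e1.trans e2) e2.symm (by omega))

/-- From a Schur-good `n`-colouring of `1..m`, modular good `(n+1)`-colourings for every modulus
`k + 1 ≤ 3m + 2`. -/
theorem exists_modGood {n : ℕ} (c : ℕ → Fin n) (m : ℕ) (hc : SchurGood c m) (k : ℕ)
    (hk : k ≤ 3 * m + 1) : ∃ f : ℕ → Fin (n + 1), ModGood f k := by
  obtain ⟨j, hj | hj | hj⟩ : ∃ j : ℕ, k + 1 = 3 * j + 1 ∨ k + 1 = 3 * j + 2 ∨
      (k + 1 = 3 * j ∧ 1 ≤ j) := by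
    refine ⟨(k + 1) / 3, ?_⟩
    omega
  · refine ⟨glue c (j + 1) (2 * j) (k + 1), ?_⟩
    have := glue_modGood c m j (j + 1) (2 * j) (k + 1) hc (by omega) (Or.inl ⟨rfl, rfl, hj⟩)
    simpa using this
  · refine ⟨glue c (j + 1) (2 * j + 1) (k + 1), ?_⟩
    have := glue_modGood c m j (j + 1) (2 * j + 1) (k + 1) hc (by omega)
      (Or.inr (Or.inl ⟨rfl, rfl, hj⟩))
    simpa using this
  · refine ⟨glue c j (2 * j - 1) (k + 1), ?_⟩
    have := glue_modGood c m j j (2 * j - 1) (k + 1) hc (by omega)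
      (Or.inr (Or.inr ⟨rfl, by omega, hj.1, hj.2⟩))
    simpa using this

/-- The set of all `k` such that every `n`-colouring of `1..k` has a monochromatic `x + y = z`. -/
def schurSet (n : ℕ) : Set ℕ := {k : ℕ | ∀ c : ℕ → Fin n, ∃ x y z : ℕ,
          1 ≤ x ∧ x ≤ k ∧ 1 ≤ y ∧ y ≤ k ∧ 1 ≤ z ∧ z ≤ k ∧
          c x = c y ∧ c y = c z ∧ x + y = z}

/-- The set of all `k` such that every `n`-colouring of `1..k` has a monochromatic
`x + y ≡ z` modulo `k + 1`. -/
def modSchurSet (n : ℕ) : Set ℕ := {k : ℕ | ∀ c : ℕ → Fin n, ∃ x y z : ℕ,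
          1 ≤ x ∧ x ≤ k ∧ 1 ≤ y ∧ y ≤ k ∧ 1 ≤ z ∧ z ≤ k ∧
          c x = c y ∧ c y = c z ∧ x + y ≡ z [MOD k + 1]}

/-- The (ordinary) Schur number `s(n)`. -/
noncomputable def s (n : ℕ) : ℕ := sInf (schurSet n)

/-- The modular Schur number `t(n)`. -/
noncomputable def t (n : ℕ) : ℕ := sInf (modSchurSet n)

theorem not_mem_schurSet {n k : ℕ} : k ∉ schurSet n ↔ ∃ c : ℕ → Fin n, SchurGood c k := by
  simp only [schurSet, Set.mem_ofPred_eq, not_forall, SchurGood]
  refine exists_congr fun c => ?_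
  constructor
  · intro h x y z a b d e f g h1 h2 h3
    exact h ⟨x, y, z, a, b, d, e, f, g, h1, h2, h3⟩
  · rintro h ⟨x, y, z, a, b, d, e, f, g, h1, h2, h3⟩
    exact h x y z a b d e f g h1 h2 h3

theorem not_mem_modSchurSet {n k : ℕ} : k ∉ modSchurSet n ↔ ∃ c : ℕ → Fin n, ModGood c k := by
  simp only [modSchurSet, Set.mem_ofPred_eq, not_forall, ModGood]
  refine exists_congr fun c => ?_
  constructor
  · intro h x y z a b d e f g h1 h2 h3
    exact h ⟨x, y, z, a, b, d, e, f, g, h1, h2, h3⟩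
  · rintro h ⟨x, y, z, a, b, d, e, f, g, h1, h2, h3⟩
    exact h x y z a b d e f g h1 h2 h3

theorem schurSet_subset (n : ℕ) : schurSet n ⊆ modSchurSet n := by
  intro k hk
  by_contra h
  obtain ⟨c, hc⟩ := not_mem_modSchurSet.1 h
  exact not_mem_schurSet.2 ⟨c, hc.schurGood⟩ hk

/-- Pigeonhole step for Schur's theorem: a set of naturals whose differences are coloured with
`k` colours contains a monochromatic Schur triple of differences when large. -/
theorem schur_aux (n k : ℕ) : ∃ g : ℕ, ∀ (c : ℕ → Fin n) (K : Finset (Fin n)) (X : Finset ℕ),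
    K.card = k → g ≤ X.card → (∀ x ∈ X, ∀ y ∈ X, x < y → c (y - x) ∈ K) →
    ∃ u ∈ X, ∃ v ∈ X, ∃ w ∈ X, u < v ∧ v < w ∧ c (v - u) = c (w - v) ∧ c (w - v) = c (w - u) := by
  induction k with
  | zero =>
    refine ⟨2, fun c K X hK hX h => ?_⟩
    obtain ⟨x, hx, y, hy, hxy⟩ := Finset.one_lt_card.1 (by omega : 1 < X.card)
    rw [Finset.card_eq_zero] at hK
    subst hK
    rcases lt_or_gt_of_ne hxy with h1 | h1
    · exact absurd (h x hx y hy h1) (by simp)
    · exact absurd (h y hy x hx h1) (by simp)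
  | succ k ih =>
    obtain ⟨g, hg⟩ := ih
    refine ⟨(k + 1) * g + 2, fun c K X hK hX h => ?_⟩
    have hXne : X.Nonempty := Finset.card_pos.1 (by omega)
    set x0 := X.min' hXne with hx0
    have hx0X : x0 ∈ X := X.min'_mem hXne
    set Y := X.erase x0 with hY
    have hYc : (k + 1) * g < Y.card := by
      rw [hY, Finset.card_erase_of_mem hx0X]; omega
    have hlt : ∀ y ∈ Y, x0 < y := by
      intro y hy
      exact lt_of_le_of_ne (X.min'_le y (Finset.mem_of_mem_erase hy))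
        (Finset.ne_of_mem_erase hy).symm
    have hmap : ∀ y ∈ Y, c (y - x0) ∈ K := fun y hy =>
      h x0 hx0X y (Finset.mem_of_mem_erase hy) (hlt y hy)
    obtain ⟨i, hi, hcard⟩ := Finset.exists_lt_card_fiber_of_mul_lt_card_of_maps_to hmap
      (by rw [hK]; exact hYc)
    set Z := Y.filter (fun y => c (y - x0) = i) with hZ
    by_cases hex : ∃ y ∈ Z, ∃ z ∈ Z, y < z ∧ c (z - y) = i
    · obtain ⟨y, hy, z, hz, hyz, hc⟩ := hex
      have hy' := Finset.mem_filter.1 hy
      have hz' := Finset.mem_filter.1 hz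
      refine ⟨x0, hx0X, y, Finset.mem_of_mem_erase hy'.1, z, Finset.mem_of_mem_erase hz'.1,
        hlt y hy'.1, hyz, ?_, ?_⟩
      · rw [hy'.2, hc]
      · rw [hz'.2, hc]
    · push Not at hex
      obtain ⟨u, hu, v, hv, w, hw, h1⟩ := hg c (K.erase i) Z
        (by rw [Finset.card_erase_of_mem hi, hK]; rfl) hcard.le (by
          intro x hx y hy hxy
          refine Finset.mem_erase.2 ⟨hex x hx y hy hxy, ?_⟩
          exact h x (Finset.mem_of_mem_erase (Finset.mem_filter.1 hx).1) y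
            (Finset.mem_of_mem_erase (Finset.mem_filter.1 hy).1) hxy)
      exact ⟨u, Finset.mem_of_mem_erase (Finset.mem_filter.1 hu).1, v,
        Finset.mem_of_mem_erase (Finset.mem_filter.1 hv).1, w,
        Finset.mem_of_mem_erase (Finset.mem_filter.1 hw).1, h1⟩

/-- Schur's theorem. -/
theorem schurSet_nonempty (n : ℕ) : (schurSet n).Nonempty := by
  obtain ⟨g, hg⟩ := schur_aux n n
  refine ⟨g, fun c => ?_⟩
  obtain ⟨u, hu, v, hv, w, hw, h1, h2, h3, h4⟩ := hg c Finset.univ (Finset.range (g + 1))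
    (by simp) (by simp) (by simp)
  rw [Finset.mem_range] at hu hv hw
  exact ⟨v - u, w - v, w - u, by omega, by omega, by omega, by omega, by omega, by omega, h3, h4,
    by omega⟩

theorem modSchurSet_nonempty (n : ℕ) : (modSchurSet n).Nonempty :=
  (schurSet_nonempty n).mono (schurSet_subset n)

theorem t_le_s (n : ℕ) : t n ≤ s n :=
  Nat.sInf_le (schurSet_subset n (Nat.sInf_mem (schurSet_nonempty n)))

theorem exists_schurGood {n k : ℕ} (h : k < s n) : ∃ c : ℕ → Fin n, SchurGood c k :=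
  not_mem_schurSet.1 (Nat.notMem_of_lt_sInf h)

theorem exists_modGood' {n k : ℕ} (h : k < t n) : ∃ c : ℕ → Fin n, ModGood c k :=
  not_mem_modSchurSet.1 (Nat.notMem_of_lt_sInf h)

theorem SchurGood.mono {n : ℕ} {c : ℕ → Fin n} {m k : ℕ} (h : SchurGood c m) (hk : k ≤ m) :
    SchurGood c k := fun x y z a b d e f g =>
  h x y z a (b.trans hk) d (e.trans hk) f (g.trans hk)

theorem lt_s_iff {n k : ℕ} : k < s n ↔ ∃ c : ℕ → Fin n, SchurGood c k := by
  constructor
  · exact exists_schurGood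
  · rintro ⟨c, hc⟩
    by_contra h
    push Not at h
    obtain hm := Nat.sInf_mem (schurSet_nonempty n)
    exact absurd hm (not_mem_schurSet.2 ⟨c, hc.mono h⟩)

theorem lt_t_iff {n k : ℕ} : k < t n ↔ ∀ j ≤ k, ∃ c : ℕ → Fin n, ModGood c j := by
  constructor
  · intro h j hj
    exact exists_modGood' (hj.trans_lt h)
  · intro h
    by_contra h1
    push Not at h1
    obtain ⟨c, hc⟩ := h _ h1
    exact not_mem_modSchurSet.2 ⟨c, hc⟩ (Nat.sInf_mem (modSchurSet_nonempty n))

theorem one_le_s (n : ℕ) (hn : 1 ≤ n) : 2 ≤ s n := by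
  refine lt_s_iff.2 ⟨fun _ => ⟨0, hn⟩, ?_⟩
  intro x y z hx hx' hy hy' hz hz' _ _
  omega

/-- **Main comparison.** `3 s(n) - 1 ≤ t(n+1)`. -/
theorem three_mul_s_le (n : ℕ) (hn : 1 ≤ n) : 3 * s n ≤ t (n + 1) + 1 := by
  have h2 := one_le_s n hn
  obtain ⟨c, hc⟩ := exists_schurGood (n := n) (k := s n - 1) (by omega)
  have : 3 * s n - 2 < t (n + 1) := by
    refine lt_t_iff.2 fun j hj => exists_modGood c (s n - 1) hc j (by omega)
  omega

end Pool.Agent.Helper339_Schur
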