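import Pool.Agent.Helper339_Schur.Basic

set_option autoImplicit false

/-!
# Growth rates of the ordinary and the modular Schur numbers
-/

namespace Pool.Agent.Helper339_Schur

open Filter Topology
open scoped ENNReal

/-- The Abbott–Hanson product colouring. -/
def prodCol {k l : ℕ} (c : ℕ → Fin k) (d : ℕ → Fin l) (a : ℕ) (x : ℕ) : Fin (k + l) :=
  if (x + a) % (2 * a + 1) ≤ a then Fin.natAdd k (d ((x + a) / (2 * a + 1)))
  else Fin.castAdd l (c ((x + a) % (2 * a + 1) - a))

theorem lin_aux {L u v w p q r : ℕ} (h : L * u + p + (L * v + q) = L * w + r)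
    (h1 : p + q < r + L) (h2 : r < p + q + L) : u + v = w ∧ p + q = r := by
  have e : u + v = w := by
    rcases Nat.lt_trichotomy (u + v) w with h3 | h3 | h3
    · exfalso
      have : L * (u + v + 1) ≤ L * w := Nat.mul_le_mul_left L h3
      have e2 : L * (u + v + 1) = L * u + L * v + L := by ring
      omega
    · exact h3
    · exfalso
      have : L * (w + 1) ≤ L * (u + v) := Nat.mul_le_mul_left L h3
      have e2 : L * (u + v) = L * u + L * v := by ring
      have e3 : L * (w + 1) = L * w + L := by ring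
      omega
  refine ⟨e, ?_⟩
  have e2 : L * w = L * u + L * v := by rw [← e]; ring
  omega

theorem prodCol_good {k l : ℕ} (c : ℕ → Fin k) (d : ℕ → Fin l) (a b : ℕ) (hc : SchurGood c a)
    (hd : SchurGood d b) : SchurGood (prodCol c d a) ((2 * a + 1) * b + a) := by
  intro x y z hx hx' hy hy' hz hz' h1 h2 h3
  unfold prodCol at h1 h2
  set L := 2 * a + 1 with hL
  have dx := Nat.div_add_mod (x + a) L
  have dy := Nat.div_add_mod (y + a) L
  have dz := Nat.div_add_mod (z + a) L
  have mx : (x + a) % L < L := Nat.mod_lt _ (by omega)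
  have my : (y + a) % L < L := Nat.mod_lt _ (by omega)
  have mz : (z + a) % L < L := Nat.mod_lt _ (by omega)
  have hne : ∀ (i : Fin k) (j : Fin l), Fin.castAdd l i ≠ Fin.natAdd k j := by
    intro i j h
    have := congrArg Fin.val h
    simp at this
    omega
  have ub : ∀ w, 1 ≤ w → w ≤ L * b + a → (w + a) % L ≤ a → 1 ≤ (w + a) / L ∧ (w + a) / L ≤ b := by
    intro w hw hw' hwm
    have dw := Nat.div_add_mod (w + a) L
    constructor
    · rcases Nat.eq_zero_or_pos ((w + a) / L) with h | h
      · rw [h] at dw; omega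
      · exact h
    · by_contra h
      push Not at h
      have : L * (b + 1) ≤ L * ((w + a) / L) := Nat.mul_le_mul_left L h
      have e : L * (b + 1) = L * b + L := by ring
      omega
  split_ifs at h1 h2 with a1 a2 a3 a4
  · have e1 := Fin.natAdd_injective _ _ h1
    have e2 := Fin.natAdd_injective _ _ h2
    have := lin_aux (L := L) (u := (x + a) / L) (v := (y + a) / L) (w := (z + a) / L)
      (p := (x + a) % L) (q := (y + a) % L) (r := (z + a) % L + a) (by omega) (by omega) (by omega)
    exact hd _ _ _ (ub x hx hx' a1).1 (ub x hx hx' a1).2 (ub y hy hy' a2).1 (ub y hy hy' a2).2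
      (ub z hz hz' a3).1 (ub z hz hz' a3).2 e1 e2 this.1
  · exact hne _ _ h2.symm
  · exact hne _ _ h1.symm
  · exact hne _ _ h1.symm
  · exact hne _ _ h1
  · exact hne _ _ h1
  · exact hne _ _ h2
  · have e1 := Fin.castAdd_injective _ _ h1
    have e2 := Fin.castAdd_injective _ _ h2
    have := lin_aux (L := L) (u := (x + a) / L) (v := (y + a) / L) (w := (z + a) / L)
      (p := (x + a) % L) (q := (y + a) % L) (r := (z + a) % L + a) (by omega) (by omega) (by omega)
    exact hc _ _ _ (by omega) (by omega) (by omega) (by omega) (by omega) (by omega) e1 e2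
      (by omega)

/-- The Abbott–Hanson inequality `(2 s(k) - 1)(2 s(l) - 1) ≤ 2 s(k+l) - 1`. -/
theorem abbott_hanson (k l : ℕ) (hk : 1 ≤ k) (hl : 1 ≤ l) :
    (2 * s k - 1) * (2 * s l - 1) ≤ 2 * s (k + l) - 1 := by
  have h1 := one_le_s k hk
  have h2 := one_le_s l hl
  obtain ⟨c, hc⟩ := exists_schurGood (n := k) (k := s k - 1) (by omega)
  obtain ⟨d, hd⟩ := exists_schurGood (n := l) (k := s l - 1) (by omega)
  have h3 := lt_s_iff.2 ⟨_, prodCol_good c d _ _ hc hd⟩
  obtain ⟨a, ha⟩ : ∃ a, s k = a + 1 := ⟨s k - 1, by omega⟩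
  obtain ⟨b, hb⟩ : ∃ b, s l = b + 1 := ⟨s l - 1, by omega⟩
  rw [ha, hb] at h3 ⊢
  have e1 : 2 * (a + 1) - 1 = 2 * a + 1 := by omega
  have e2 : 2 * (b + 1) - 1 = 2 * b + 1 := by omega
  rw [e1, e2]
  simp only [Nat.add_sub_cancel] at h3
  have e3 : (2 * a + 1) * (2 * b + 1) = 2 * ((2 * a + 1) * b + a) + 1 := by ring
  omega

end Pool.Agent.Helper339_Schur
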