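import Pool.Agent.Helper339_Schur.Limit

set_option autoImplicit false

/-!
# Infinitely often `s(n)` and `t(n)` differ by at most a factor of order `n`
-/

namespace Pool.Agent.Helper339_Schur

/-- The bound in Schur's theorem. -/
def g : ℕ → ℕ
  | 0 => 2
  | k + 1 => (k + 1) * g k + 2

theorem schur_aux_g (n k : ℕ) : ∀ (c : ℕ → Fin n) (K : Finset (Fin n)) (X : Finset ℕ),
    K.card = k → g k ≤ X.card → (∀ x ∈ X, ∀ y ∈ X, x < y → c (y - x) ∈ K) →
    ∃ u ∈ X, ∃ v ∈ X, ∃ w ∈ X, u < v ∧ v < w ∧ c (v - u) = c (w - v) ∧ c (w - v) = c (w - u) := by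
  induction k with
  | zero =>
    intro c K X hK hX h
    have hX' : 2 ≤ X.card := hX
    obtain ⟨x, hx, y, hy, hxy⟩ := Finset.one_lt_card.1 (by omega : 1 < X.card)
    rw [Finset.card_eq_zero] at hK
    subst hK
    rcases lt_or_gt_of_ne hxy with h1 | h1
    · exact absurd (h x hx y hy h1) (by simp)
    · exact absurd (h y hy x hx h1) (by simp)
  | succ k ih =>
    intro c K X hK hX h
    have hX' : (k + 1) * g k + 2 ≤ X.card := hX
    have hXne : X.Nonempty := Finset.card_pos.1 (by omega)
    set x0 := X.min' hXne with hx0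
    have hx0X : x0 ∈ X := X.min'_mem hXne
    set Y := X.erase x0 with hY
    have hYc : (k + 1) * g k < Y.card := by
      rw [hY, Finset.card_erase_of_mem hx0X]; omega
    have hlt : ∀ y ∈ Y, x0 < y := by
      intro y hy
      exact lt_of_le_of_ne (X.min'_le y (Finset.mem_of_mem_erase hy))
        (Finset.ne_of_mem_erase hy).symm
    have hmap : ∀ y ∈ Y, c (y - x0) ∈ K := fun y hy =>
      h x0 hx0X y (Finset.mem_of_mem_erase hy) (hlt y hy)
    obtain ⟨i, hi, hcard⟩ := Finset.exists_lt_card_fiber_of_mul_lt_card_of_maps_to hmap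
      (by rw [hK]; exact hYc)
    set Z := Y.filter (fun y => c (y - x0) = i) with hZ
    by_cases hex : ∃ y ∈ Z, ∃ z ∈ Z, y < z ∧ c (z - y) = i
    · obtain ⟨y, hy, z, hz, hyz, hc⟩ := hex
      have hy' := Finset.mem_filter.1 hy
      have hz' := Finset.mem_filter.1 hz
      refine ⟨x0, hx0X, y, Finset.mem_of_mem_erase hy'.1, z, Finset.mem_of_mem_erase hz'.1,
        hlt y hy'.1, hyz, ?_, ?_⟩
      · rw [hy'.2, hc]
      · rw [hz'.2, hc]
    · push Not at hex
      obtain ⟨u, hu, v, hv, w, hw, h1⟩ := ih c (K.erase i) Z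
        (by rw [Finset.card_erase_of_mem hi, hK]; rfl) hcard.le (by
          intro x hx y hy hxy
          refine Finset.mem_erase.2 ⟨hex x hx y hy hxy, ?_⟩
          exact h x (Finset.mem_of_mem_erase (Finset.mem_filter.1 hx).1) y
            (Finset.mem_of_mem_erase (Finset.mem_filter.1 hy).1) hxy)
      exact ⟨u, Finset.mem_of_mem_erase (Finset.mem_filter.1 hu).1, v,
        Finset.mem_of_mem_erase (Finset.mem_filter.1 hv).1, w,
        Finset.mem_of_mem_erase (Finset.mem_filter.1 hw).1, h1⟩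

theorem s_le_g (n : ℕ) : s n ≤ g n := by
  refine Nat.sInf_le fun c => ?_
  obtain ⟨u, hu, v, hv, w, hw, h1, h2, h3, h4⟩ := schur_aux_g n n c Finset.univ
    (Finset.range (g n + 1)) (by simp) (by simp) (by simp)
  rw [Finset.mem_range] at hu hv hw
  exact ⟨v - u, w - v, w - u, by omega, by omega, by omega, by omega, by omega, by omega, h3, h4,
    by omega⟩

/-- `g n ≤ 8 n! - 2 (n+1)…`: a crude factorial bound. -/
theorem g_le (n : ℕ) : g n + 4 ≤ 8 * n.factorial + 2 * (if n ≤ 1 then 1 else 0) := by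
  induction n with
  | zero => simp [g]
  | succ n ih =>
    rcases Nat.lt_or_ge n 2 with hn | hn
    · interval_cases n <;> simp [g, Nat.factorial]
    · have h1 : ¬ n ≤ 1 := by omega
      have h2 : ¬ n + 1 ≤ 1 := by omega
      simp only [h1, h2, if_false, mul_zero, add_zero] at ih ⊢
      show (n + 1) * g n + 2 + 4 ≤ 8 * (n + 1).factorial
      rw [Nat.factorial_succ]
      have h3 : (n + 1) * (g n + 4) ≤ (n + 1) * (8 * n.factorial) := Nat.mul_le_mul_left _ ih
      have h4 : (n + 1) * (g n + 4) = (n + 1) * g n + 4 * (n + 1) := by ring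
      have h5 : (n + 1) * (8 * n.factorial) = 8 * ((n + 1) * n.factorial) := by ring
      omega

theorem s_le_factorial (n : ℕ) : s n ≤ 8 * n.factorial := by
  have h1 := s_le_g n
  have h2 := g_le n
  split_ifs at h2 <;> omega

/-- Infinitely often `s(n+1) ≤ (n+2) s(n)`. -/
theorem ratio_io (n0 : ℕ) : ∃ n, n0 ≤ n ∧ 1 ≤ n ∧ s (n + 1) ≤ (n + 2) * s n := by
  by_contra h
  push Not at h
  set m := max n0 1 with hm
  have hm1 : 1 ≤ m := le_max_right _ _
  have hm0 : n0 ≤ m := le_max_left _ _
  -- s (m+j) * (m+1)! ≥ s m * (m+j+1)!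
  have key : ∀ j : ℕ, s m * (m + j + 1).factorial ≤ s (m + j) * (m + 1).factorial := by
    intro j
    induction j with
    | zero => simp
    | succ j ih =>
      have h1 := (h (m + j) (by omega) (by omega)).le
      have e1 : (m + (j + 1) + 1).factorial = (m + j + 2) * (m + j + 1).factorial := by
        have : m + (j + 1) + 1 = (m + j + 1) + 1 := by ring
        rw [this, Nat.factorial_succ]
      rw [e1]
      calc s m * ((m + j + 2) * (m + j + 1).factorial)
          = (m + j + 2) * (s m * (m + j + 1).factorial) := by ring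
        _ ≤ (m + j + 2) * (s (m + j) * (m + 1).factorial) := Nat.mul_le_mul_left _ ih
        _ = ((m + j + 2) * s (m + j)) * (m + 1).factorial := by ring
        _ ≤ s (m + j + 1) * (m + 1).factorial := Nat.mul_le_mul_right _ h1
  have h1 := key (8 * (m + 1).factorial)
  set j := 8 * (m + 1).factorial with hj
  have h2 := s_le_factorial (m + j)
  have h3 := one_le_s m hm1
  have h4 : s m * (m + j + 1).factorial ≤ j * (m + j).factorial := by
    calc s m * (m + j + 1).factorial ≤ s (m + j) * (m + 1).factorial := h1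
      _ ≤ 8 * (m + j).factorial * (m + 1).factorial := Nat.mul_le_mul_right _ h2
      _ = j * (m + j).factorial := by rw [hj]; ring
  rw [Nat.factorial_succ] at h4
  have h5 : 0 < (m + j).factorial := Nat.factorial_pos _
  have h6 : s m * ((m + j + 1) * (m + j).factorial) = (s m * (m + j + 1)) * (m + j).factorial := by
    ring
  rw [h6] at h4
  have h7 := Nat.le_of_mul_le_mul_right h4 h5
  have h8 : 1 * (m + j + 1) ≤ s m * (m + j + 1) := Nat.mul_le_mul_right _ (by omega)
  omega

/-- Infinitely often `3 s(n) ≤ (n+1)(t(n)+1)`. -/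
theorem inf_often (n0 : ℕ) : ∃ n, n0 ≤ n ∧ 3 * s n ≤ (n + 1) * (t n + 1) := by
  obtain ⟨n, hn, hn1, h⟩ := ratio_io n0
  refine ⟨n + 1, by omega, ?_⟩
  have h1 := three_mul_s_le n hn1
  calc 3 * s (n + 1) ≤ 3 * ((n + 2) * s n) := Nat.mul_le_mul_left _ h
    _ = (n + 2) * (3 * s n) := by ring
    _ ≤ (n + 2) * (t (n + 1) + 1) := Nat.mul_le_mul_left _ h1

end Pool.Agent.Helper339_Schur
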