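import Pool.Agent.Helper339_Schur.Growth

set_option autoImplicit false

/-!
# The common growth rate of the ordinary and the modular Schur numbers
-/

namespace Pool.Agent.Helper339_Schur

open Filter Topology
open scoped ENNReal

theorem s_zero : s 0 = 0 := by
  have : 0 ∈ schurSet 0 := fun c => (c 0).elim0
  exact Nat.le_zero.1 (Nat.sInf_le this)

theorem s_mono_succ (n : ℕ) : s n ≤ s (n + 1) := by
  rcases Nat.eq_zero_or_pos n with h | h
  · subst h; rw [s_zero]; exact Nat.zero_le _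
  · have h1 := three_mul_s_le n h
    have h2 := t_le_s (n + 1)
    have h3 := one_le_s n h
    omega

/-- `F n = log (2 s(n) - 1)`. -/
noncomputable def F (n : ℕ) : ℝ := Real.log (2 * (s n : ℝ) - 1)

theorem F_zero : F 0 = 0 := by simp [F, s_zero]

theorem F_superadd (k l : ℕ) : F k + F l ≤ F (k + l) := by
  rcases Nat.eq_zero_or_pos k with hk | hk
  · subst hk; simp [F_zero]
  rcases Nat.eq_zero_or_pos l with hl | hl
  · subst hl; simp [F_zero]
  have h := abbott_hanson k l hk hl
  have h1 := one_le_s k hk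
  have h2 := one_le_s l hl
  have h3 := one_le_s (k + l) (by omega)
  have h' : ((2 * s k - 1 : ℕ) : ℝ) * ((2 * s l - 1 : ℕ) : ℝ) ≤ ((2 * s (k + l) - 1 : ℕ) : ℝ) := by
    exact_mod_cast h
  rw [Nat.cast_sub (by omega), Nat.cast_sub (by omega), Nat.cast_sub (by omega)] at h'
  push_cast at h'
  have g1 : (2 : ℝ) ≤ s k := by exact_mod_cast h1
  have g2 : (2 : ℝ) ≤ s l := by exact_mod_cast h2
  unfold F
  rw [← Real.log_mul (by linarith) (by linarith)]
  exact Real.log_le_log (by nlinarith) h'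

theorem F_nonneg (n : ℕ) : 0 ≤ F n := by
  rcases Nat.eq_zero_or_pos n with hk | hk
  · subst hk; rw [F_zero]
  · have h1 := one_le_s n hk
    have g1 : (2 : ℝ) ≤ s n := by exact_mod_cast h1
    exact Real.log_nonneg (by linarith)

theorem F_mul (q k : ℕ) : (q : ℝ) * F k ≤ F (q * k) := by
  induction q with
  | zero => simp [F_zero]
  | succ q ih =>
    have := F_superadd (q * k) k
    have e : (q + 1) * k = q * k + k := by ring
    rw [e]
    push_cast
    linarith

/-- Either `F n / n` converges to a real or it tends to infinity. -/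
theorem F_limit : (∃ l : ℝ, Tendsto (fun n : ℕ => F n / n) atTop (𝓝 l)) ∨
    Tendsto (fun n : ℕ => F n / n) atTop atTop := by
  by_cases hb : BddAbove (Set.range fun n : ℕ => F n / n)
  · left
    have hs : Subadditive (fun n => - F n) := by
      intro m n
      have := F_superadd m n
      show - F (m + n) ≤ - F m + - F n
      linarith
    have hbb : BddBelow (Set.range fun n : ℕ => (fun n => - F n) n / n) := by
      obtain ⟨B, hB⟩ := hb
      refine ⟨-B, ?_⟩
      rintro _ ⟨n, rfl⟩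
      have := hB ⟨n, rfl⟩
      simp only at this ⊢
      rw [neg_div]
      linarith
    refine ⟨- hs.lim, ?_⟩
    have := (hs.tendsto_lim hbb).neg
    refine this.congr fun n => ?_
    show - ((- F n) / (n : ℝ)) = F n / n
    rw [neg_div, neg_neg]
  · right
    rw [tendsto_atTop]
    intro C
    have hb' : ∃ k : ℕ, 2 * max C 0 < F k / k := by
      by_contra h
      push Not at h
      exact hb ⟨2 * max C 0, by rintro _ ⟨n, rfl⟩; exact h n⟩
    obtain ⟨k, hk⟩ := hb'
    have hk0 : 0 < k := by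
      rcases Nat.eq_zero_or_pos k with h | h
      · subst h
        simp at hk
        exact absurd hk (by simp)
      · exact h
    have hkR : (0 : ℝ) < k := by exact_mod_cast hk0
    rw [lt_div_iff₀ hkR] at hk
    filter_upwards [eventually_ge_atTop k] with n hn
    have hn0 : 0 < n := by omega
    have hnR : (0 : ℝ) < n := by exact_mod_cast hn0
    rw [le_div_iff₀ hnR]
    have hdm := Nat.div_add_mod n k
    have hml := Nat.mod_lt n hk0
    have hq : 1 ≤ n / k := (Nat.one_le_div_iff hk0).2 hn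
    have h1 := F_superadd (n / k * k) (n % k)
    have h2 := F_mul (n / k) k
    have h3 := F_nonneg (n % k)
    have e : n / k * k + n % k = n := by rw [mul_comm]; exact hdm
    rw [e] at h1
    have h4 : (n : ℝ) ≤ 2 * ((n / k : ℕ) : ℝ) * k := by
      have : n ≤ 2 * (n / k) * k := by
        have : k * 1 ≤ k * (n / k) := Nat.mul_le_mul_left k hq
        have e2 : 2 * (n / k) * k = k * (n / k) + k * (n / k) := by ring
        omega
      exact_mod_cast this
    have h5 : C ≤ max C 0 := le_max_left _ _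
    have h6 : 0 ≤ max C 0 := le_max_right _ _
    have h7 : (1 : ℝ) ≤ ((n / k : ℕ) : ℝ) := by exact_mod_cast hq
    calc C * n ≤ max C 0 * n := by gcongr
      _ ≤ max C 0 * (2 * ((n / k : ℕ) : ℝ) * k) := by gcongr
      _ = ((n / k : ℕ) : ℝ) * (2 * max C 0 * k) := by ring
      _ ≤ ((n / k : ℕ) : ℝ) * F k := by gcongr
      _ ≤ F n := by linarith

theorem logs_bounds (n : ℕ) (hn : 1 ≤ n) :
    F n - Real.log 2 ≤ Real.log (s n) ∧ Real.log (s n) ≤ F n := by
  have h1 := one_le_s n hn
  have g1 : (2 : ℝ) ≤ s n := by exact_mod_cast h1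
  constructor
  · unfold F
    rw [← Real.log_div (by linarith) (by norm_num)]
    exact Real.log_le_log (by linarith) (by linarith)
  · exact Real.log_le_log (by linarith) (by linarith)

theorem logt_bounds (n : ℕ) (hn : 1 ≤ n) :
    Real.log (s n) ≤ Real.log (t (n + 1)) ∧ Real.log (t (n + 1)) ≤ Real.log (s (n + 1)) := by
  have h1 := one_le_s n hn
  have h2 := three_mul_s_le n hn
  have h3 := t_le_s (n + 1)
  have g1 : (2 : ℝ) ≤ s n := by exact_mod_cast h1
  have g2 : (s n : ℝ) ≤ t (n + 1) := by exact_mod_cast (by omega : s n ≤ t (n + 1))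
  have g3 : (t (n + 1) : ℝ) ≤ s (n + 1) := by exact_mod_cast h3
  exact ⟨Real.log_le_log (by linarith) g2, Real.log_le_log (by linarith) g3⟩

theorem log_two_div : Tendsto (fun n : ℕ => Real.log 2 / (n : ℝ)) atTop (𝓝 0) :=
  tendsto_const_div_atTop_nhds_zero_nat _

theorem limit_real (l : ℝ) (h : Tendsto (fun n : ℕ => F n / n) atTop (𝓝 l)) :
    Tendsto (fun n : ℕ => Real.log (s n) / n) atTop (𝓝 l) ∧
    Tendsto (fun n : ℕ => Real.log (t n) / n) atTop (𝓝 l) := by
  have hs : Tendsto (fun n : ℕ => Real.log (s n) / n) atTop (𝓝 l) := by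
    have h1 : Tendsto (fun n : ℕ => F n / n - Real.log 2 / n) atTop (𝓝 (l - 0)) :=
      h.sub log_two_div
    rw [sub_zero] at h1
    refine tendsto_of_tendsto_of_tendsto_of_le_of_le' h1 h ?_ ?_
    · filter_upwards [eventually_ge_atTop 1] with n hn
      have hnR : (0 : ℝ) < n := by exact_mod_cast hn
      rw [← sub_div]
      exact div_le_div_of_nonneg_right (logs_bounds n hn).1 hnR.le
    · filter_upwards [eventually_ge_atTop 1] with n hn
      have hnR : (0 : ℝ) < n := by exact_mod_cast hn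
      exact div_le_div_of_nonneg_right (logs_bounds n hn).2 hnR.le
  refine ⟨hs, ?_⟩
  rw [← tendsto_add_atTop_iff_nat 1]
  have hs1 := (tendsto_add_atTop_iff_nat 1).2 hs
  have hr : Tendsto (fun n : ℕ => (n : ℝ) / ((n + 1 : ℕ) : ℝ)) atTop (𝓝 1) := by
    have := tendsto_natCast_div_add_atTop (𝕜 := ℝ) 1
    refine this.congr fun n => ?_
    push_cast
    rfl
  have hlow : Tendsto (fun n : ℕ => (Real.log (s n) / n) * ((n : ℝ) / ((n + 1 : ℕ) : ℝ))) atTop
      (𝓝 (l * 1)) := hs.mul hr
  rw [mul_one] at hlow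
  refine tendsto_of_tendsto_of_tendsto_of_le_of_le' hlow hs1 ?_ ?_
  · filter_upwards [eventually_ge_atTop 1] with n hn
    have hnR : (0 : ℝ) < n := by exact_mod_cast hn
    have hnR' : (0 : ℝ) < ((n + 1 : ℕ) : ℝ) := by positivity
    have e : (Real.log (s n) / n) * ((n : ℝ) / ((n + 1 : ℕ) : ℝ)) =
        Real.log (s n) / ((n + 1 : ℕ) : ℝ) := by
      field_simp
    rw [e]
    exact div_le_div_of_nonneg_right (logt_bounds n hn).1 hnR'.le
  · filter_upwards [eventually_ge_atTop 1] with n hn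
    have hnR' : (0 : ℝ) < ((n + 1 : ℕ) : ℝ) := by positivity
    exact div_le_div_of_nonneg_right (logt_bounds n hn).2 hnR'.le

theorem limit_top (h : Tendsto (fun n : ℕ => F n / n) atTop atTop) :
    Tendsto (fun n : ℕ => Real.log (s n) / n) atTop atTop ∧
    Tendsto (fun n : ℕ => Real.log (t n) / n) atTop atTop := by
  have hs : Tendsto (fun n : ℕ => Real.log (s n) / n) atTop atTop := by
    have h1 : Tendsto (fun n : ℕ => F n / n + (- (Real.log 2 / n))) atTop atTop :=
      h.atTop_add log_two_div.neg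
    refine tendsto_atTop_mono' _ ?_ h1
    filter_upwards [eventually_ge_atTop 1] with n hn
    have hnR : (0 : ℝ) < n := by exact_mod_cast hn
    rw [← sub_eq_add_neg, ← sub_div]
    exact div_le_div_of_nonneg_right (logs_bounds n hn).1 hnR.le
  refine ⟨hs, ?_⟩
  rw [← tendsto_add_atTop_iff_nat 1]
  have hr : Tendsto (fun n : ℕ => (n : ℝ) / ((n + 1 : ℕ) : ℝ)) atTop (𝓝 1) := by
    have := tendsto_natCast_div_add_atTop (𝕜 := ℝ) 1
    refine this.congr fun n => ?_
    push_cast
    rfl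
  have hlow : Tendsto (fun n : ℕ => (Real.log (s n) / n) * ((n : ℝ) / ((n + 1 : ℕ) : ℝ))) atTop
      atTop := hs.atTop_mul_pos one_pos hr
  refine tendsto_atTop_mono' _ ?_ hlow
  filter_upwards [eventually_ge_atTop 1] with n hn
  have hnR : (0 : ℝ) < n := by exact_mod_cast hn
  have hnR' : (0 : ℝ) < ((n + 1 : ℕ) : ℝ) := by positivity
  have e : (Real.log (s n) / n) * ((n : ℝ) / ((n + 1 : ℕ) : ℝ)) =
      Real.log (s n) / ((n + 1 : ℕ) : ℝ) := by
    field_simp
  rw [e]
  exact div_le_div_of_nonneg_right (logt_bounds n hn).1 hnR'.le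

theorem rpow_eq (a : ℕ → ℕ) (ha : ∀ n, 2 ≤ n → 1 ≤ a n) (n : ℕ) (hn : 2 ≤ n) :
    ((a n : ℝ≥0∞)) ^ (1 / (n : ℝ)) = ENNReal.ofReal (Real.exp (Real.log (a n) / n)) := by
  have h1 : (0 : ℝ) < a n := by exact_mod_cast ha n hn
  have h2 : ((a n : ℕ) : ℝ≥0∞) = ENNReal.ofReal (a n : ℝ) := by simp
  rw [h2, ENNReal.ofReal_rpow_of_pos h1, Real.rpow_def_of_pos h1, mul_one_div]

theorem s_pos (n : ℕ) (hn : 2 ≤ n) : 1 ≤ s n := by
  have := one_le_s n (by omega); omega

theorem t_pos (n : ℕ) (hn : 2 ≤ n) : 1 ≤ t n := by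
  obtain ⟨m, rfl⟩ : ∃ m, n = m + 1 := ⟨n - 1, by omega⟩
  have h1 := three_mul_s_le m (by omega)
  have h2 := one_le_s m (by omega)
  omega

theorem to_ennreal_real (a : ℕ → ℕ) (ha : ∀ n, 2 ≤ n → 1 ≤ a n) (l : ℝ)
    (h : Tendsto (fun n : ℕ => Real.log (a n) / n) atTop (𝓝 l)) :
    Tendsto (fun n : ℕ => ((a n : ℝ≥0∞)) ^ (1 / (n : ℝ))) atTop
      (𝓝 (ENNReal.ofReal (Real.exp l))) := by
  have h1 : Tendsto (fun n : ℕ => ENNReal.ofReal (Real.exp (Real.log (a n) / n))) atTop
      (𝓝 (ENNReal.ofReal (Real.exp l))) :=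
    (ENNReal.continuous_ofReal.tendsto _).comp ((Real.continuous_exp.tendsto l).comp h)
  refine h1.congr' ?_
  filter_upwards [eventually_ge_atTop 2] with n hn
  exact (rpow_eq a ha n hn).symm

theorem to_ennreal_top (a : ℕ → ℕ) (ha : ∀ n, 2 ≤ n → 1 ≤ a n)
    (h : Tendsto (fun n : ℕ => Real.log (a n) / n) atTop atTop) :
    Tendsto (fun n : ℕ => ((a n : ℝ≥0∞)) ^ (1 / (n : ℝ))) atTop (𝓝 ⊤) := by
  have h1 : Tendsto (fun n : ℕ => ENNReal.ofReal (Real.exp (Real.log (a n) / n))) atTop
      (𝓝 ⊤) :=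
    ENNReal.tendsto_ofReal_atTop.comp (Real.tendsto_exp_atTop.comp h)
  refine h1.congr' ?_
  filter_upwards [eventually_ge_atTop 2] with n hn
  exact (rpow_eq a ha n hn).symm

/-- The ordinary and the modular Schur numbers have the same exponential growth rate. -/
theorem same_growth : ∃ L : ℝ≥0∞,
    Tendsto (fun n : ℕ => ((s n : ℝ≥0∞)) ^ (1 / (n : ℝ))) atTop (𝓝 L) ∧
    Tendsto (fun n : ℕ => ((t n : ℝ≥0∞)) ^ (1 / (n : ℝ))) atTop (𝓝 L) := by
  rcases F_limit with ⟨l, hl⟩ | h
  · exact ⟨_, to_ennreal_real s s_pos l (limit_real l hl).1,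
      to_ennreal_real t t_pos l (limit_real l hl).2⟩
  · exact ⟨⊤, to_ennreal_top s s_pos (limit_top h).1, to_ennreal_top t t_pos (limit_top h).2⟩

end Pool.Agent.Helper339_Schur
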