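import Pool.Agent.Helper339_Schur.InfOften

set_option autoImplicit false

/-!
# `t(j) ≥ s(j)^(1-ε)` for all but `O(log n)` of the `j ≤ n`
-/

namespace Pool.Agent.Helper339_Schur

/-- The set of `j ≤ n`, `j ≥ 1`, with `t(j) < s(j)^(1-ε)`. -/
noncomputable def bad (ε : ℝ) (n : ℕ) : Finset ℕ :=
  (Finset.Icc 1 n).filter fun j => (t j : ℝ) < (s j : ℝ) ^ (1 - ε)

theorem t_one : 2 ≤ t 1 := by
  have : 1 < t 1 := by
    refine lt_t_iff.2 fun j hj => ⟨fun _ => 0, ?_⟩
    intro x y z hx hx' hy hy' hz hz' _ _ h
    have hj' : j = 1 := by omega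
    subst hj'
    have h1 : x = 1 := by omega
    have h2 : y = 1 := by omega
    have h3 : z = 1 := by omega
    subst h1; subst h2; subst h3
    exact absurd h (by decide)
  omega

theorem s_one : s 1 ≤ 2 := by
  refine Nat.sInf_le fun c => ⟨1, 1, 2, ?_⟩
  refine ⟨le_refl _, by norm_num, le_refl _, by norm_num, by norm_num, le_refl _, rfl, ?_, rfl⟩
  exact Subsingleton.elim _ _

theorem bad_growth (ε : ℝ) (h0 : 0 < ε) (h1 : ε < 1) (n : ℕ) (hn : 1 ≤ n) :
    Real.log 2 * (1 / (1 - ε)) ^ (bad ε n).card ≤ Real.log (s n) := by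
  have hl2 : 0 < Real.log 2 := Real.log_pos (by norm_num)
  have h1ε : 0 < 1 - ε := by linarith
  induction n, hn using Nat.le_induction with
  | base =>
    have hempty : bad ε 1 = ∅ := by
      unfold bad
      rw [Finset.filter_eq_empty_iff]
      intro j hj
      rw [Finset.mem_Icc] at hj
      have : j = 1 := by omega
      subst this
      push Not
      have h2 : (2 : ℝ) ≤ t 1 := by exact_mod_cast t_one
      have h3 : (s 1 : ℝ) ≤ 2 := by exact_mod_cast s_one
      have h4 : (2 : ℝ) ≤ s 1 := by exact_mod_cast one_le_s 1 (le_refl _)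
      calc (s 1 : ℝ) ^ (1 - ε) ≤ (s 1 : ℝ) ^ (1 : ℝ) :=
            Real.rpow_le_rpow_of_exponent_le (by linarith) (by linarith)
        _ = s 1 := Real.rpow_one _
        _ ≤ 2 := h3
        _ ≤ t 1 := h2
    rw [hempty]
    simp only [Finset.card_empty, pow_zero, mul_one]
    have h4 : (2 : ℝ) ≤ s 1 := by exact_mod_cast one_le_s 1 (le_refl _)
    exact Real.log_le_log (by norm_num) h4
  | succ n hn ih =>
    have hs : (2 : ℝ) ≤ s n := by exact_mod_cast one_le_s n hn
    have hs' : (2 : ℝ) ≤ s (n + 1) := by exact_mod_cast one_le_s (n + 1) (by omega)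
    have hss : (s n : ℝ) ≤ s (n + 1) := by exact_mod_cast s_mono_succ n
    by_cases hb : (t (n + 1) : ℝ) < (s (n + 1) : ℝ) ^ (1 - ε)
    · have hcard : (bad ε (n + 1)).card = (bad ε n).card + 1 := by
        unfold bad
        have hIcc : Finset.Icc 1 (n + 1) = insert (n + 1) (Finset.Icc 1 n) := by
          ext j; simp only [Finset.mem_Icc, Finset.mem_insert]; omega
        rw [hIcc, Finset.filter_insert, if_pos hb, Finset.card_insert_of_notMem]
        simp
      have h3 := three_mul_s_le n hn
      have h4 : (s n : ℝ) ≤ t (n + 1) := by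
        have := one_le_s n hn
        exact_mod_cast (by omega : s n ≤ t (n + 1))
      have h5 : Real.log (s n) ≤ (1 - ε) * Real.log (s (n + 1)) := by
        rw [← Real.log_rpow (by linarith)]
        exact Real.log_le_log (by linarith) (h4.trans hb.le)
      rw [hcard, pow_succ]
      calc Real.log 2 * ((1 / (1 - ε)) ^ (bad ε n).card * (1 / (1 - ε)))
          = (Real.log 2 * (1 / (1 - ε)) ^ (bad ε n).card) * (1 / (1 - ε)) := by ring
        _ ≤ Real.log (s n) * (1 / (1 - ε)) := by
            apply mul_le_mul_of_nonneg_right ih; positivity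
        _ ≤ ((1 - ε) * Real.log (s (n + 1))) * (1 / (1 - ε)) := by
            apply mul_le_mul_of_nonneg_right h5; positivity
        _ = Real.log (s (n + 1)) := by field_simp
    · have hcard : (bad ε (n + 1)).card = (bad ε n).card := by
        unfold bad
        have hIcc : Finset.Icc 1 (n + 1) = insert (n + 1) (Finset.Icc 1 n) := by
          ext j; simp only [Finset.mem_Icc, Finset.mem_insert]; omega
        rw [hIcc, Finset.filter_insert, if_neg hb]
      rw [hcard]
      exact ih.trans (Real.log_le_log (by linarith) hss)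

theorem log_s_le (n : ℕ) (hn : 2 ≤ n) : Real.log (s n) ≤ 4 * (n : ℝ) ^ 2 := by
  have h1 := s_le_factorial n
  have h2 : n.factorial ≤ n ^ n := Nat.factorial_le_pow n
  have h3 : (s n : ℝ) ≤ 8 * (n : ℝ) ^ n := by
    have : s n ≤ 8 * n ^ n := h1.trans (Nat.mul_le_mul_left _ h2)
    exact_mod_cast this
  have hnR : (2 : ℝ) ≤ n := by exact_mod_cast hn
  have hs : (2 : ℝ) ≤ s n := by exact_mod_cast one_le_s n (by omega)
  have h4 : Real.log (s n) ≤ Real.log 8 + n * Real.log n := by
    calc Real.log (s n) ≤ Real.log (8 * (n : ℝ) ^ n) := Real.log_le_log (by linarith) h3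
      _ = Real.log 8 + n * Real.log n := by
        rw [Real.log_mul (by norm_num) (by positivity), Real.log_pow]
  have h5 : Real.log n ≤ n := (Real.log_le_sub_one_of_pos (by linarith)).trans (by linarith)
  have h6 : Real.log 8 ≤ 7 := by
    have := Real.log_le_sub_one_of_pos (show (0 : ℝ) < 8 by norm_num)
    linarith
  nlinarith

theorem log_exceptions (ε : ℝ) (h0 : 0 < ε) : ∃ C : ℝ, ∀ n : ℕ, 2 ≤ n →
    ((bad ε n).card : ℝ) ≤ C * Real.log n := by
  rcases lt_or_ge ε 1 with h1 | h1
  · have hl2 : 0 < Real.log 2 := Real.log_pos (by norm_num)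
    have h1ε : 0 < 1 - ε := by linarith
    set q : ℝ := Real.log (1 / (1 - ε)) with hq
    have hqpos : 0 < q := Real.log_pos (by rw [lt_div_iff₀ h1ε]; linarith)
    refine ⟨(2 + (Real.log 4 - Real.log (Real.log 2)) / Real.log 2) / q, fun n hn => ?_⟩
    have hb := bad_growth ε h0 h1 n (by omega)
    have hl := log_s_le n hn
    have hnR : (2 : ℝ) ≤ n := by exact_mod_cast hn
    have hpow : 0 < (1 / (1 - ε)) ^ (bad ε n).card := by positivity
    have h2 : Real.log (Real.log 2) + (bad ε n).card * q ≤ Real.log 4 + 2 * Real.log n := by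
      have h3 : Real.log (Real.log 2 * (1 / (1 - ε)) ^ (bad ε n).card) ≤
          Real.log (4 * (n : ℝ) ^ 2) :=
        Real.log_le_log (by positivity) (hb.trans hl)
      rw [Real.log_mul hl2.ne' hpow.ne', Real.log_pow, Real.log_mul (by norm_num) (by positivity),
        Real.log_pow] at h3
      push_cast at h3
      exact h3
    have h4 : Real.log 2 ≤ Real.log n := Real.log_le_log (by norm_num) hnR
    have h5 : 0 ≤ Real.log 4 - Real.log (Real.log 2) := by
      have h6 : Real.log (Real.log 2) ≤ 0 := by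
        apply Real.log_nonpos hl2.le
        have := Real.log_le_sub_one_of_pos (show (0 : ℝ) < 2 by norm_num)
        linarith
      have h7 : 0 ≤ Real.log 4 := Real.log_nonneg (by norm_num)
      linarith
    have h6 : Real.log 4 - Real.log (Real.log 2) ≤
        (Real.log 4 - Real.log (Real.log 2)) / Real.log 2 * Real.log n := by
      rw [div_mul_eq_mul_div, le_div_iff₀ hl2]
      exact mul_le_mul_of_nonneg_left h4 h5
    rw [div_mul_eq_mul_div, le_div_iff₀ hqpos]
    linarith
  · refine ⟨0, fun n hn => ?_⟩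
    have hempty : bad ε n = ∅ := by
      unfold bad
      rw [Finset.filter_eq_empty_iff]
      intro j hj
      rw [Finset.mem_Icc] at hj
      push Not
      have h4 : (2 : ℝ) ≤ s j := by exact_mod_cast one_le_s j hj.1
      have h5 : (1 : ℝ) ≤ t j := by
        rcases Nat.lt_or_ge j 2 with h | h
        · have : j = 1 := by omega
          subst this
          exact_mod_cast (by have := t_one; omega : 1 ≤ t 1)
        · exact_mod_cast t_pos j h
      calc (s j : ℝ) ^ (1 - ε) ≤ (s j : ℝ) ^ (0 : ℝ) :=
            Real.rpow_le_rpow_of_exponent_le (by linarith) (by linarith)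
        _ = 1 := Real.rpow_zero _
        _ ≤ t j := h5
    rw [hempty]
    simp

end Pool.Agent.Helper339_Schur
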